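import Pool.Agent.W2helper75.FD.Stm3
import Pool.Agent.W2helper82.FD.Nret
import Pool.Agent.W2helper66.FD.Words

/-!
# Project FD, part 3, piece WIN: windows from windows of `H` at height zero
-/

set_option autoImplicit false

open MeasureTheory ProbabilityTheory Filter Topology
open scoped ENNReal NNReal

namespace Pool.Agent.W2helper77.FD

open Pool.Agent.W2helper75.FD Pool.Agent.W2helper19.FD Pool.Agent.W2helper82.FD
open Pool.Agent.W2helper66.FD (exists_word)

section walk

variable {Γ : Type} [Group Γ] {S : Finset Γ} [Nonempty S] [MeasurableSpace S]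
  [DiscreteMeasurableSpace S]

/-- first step -/
lemma split_pos (g : Γ) (n : ℕ) (A : Set Γ) :
    mlaw S {c : ℕ → S | g * pos c (n + 1) ∈ A} =
      (Fintype.card S : ℝ≥0∞)⁻¹ * ∑ s : S, mlaw S {c : ℕ → S | (g * (s : Γ)) * pos c n ∈ A} := by
  rw [split _ (meas_mul_pos g (n + 1) A)]
  congr 1
  refine Finset.sum_congr rfl fun s _ => ?_
  congr 1
  ext c
  simp only [Set.mem_ofPred_eq]
  rw [pos_cns, mul_assoc]

omit [Group Γ] [MeasurableSpace S] [DiscreteMeasurableSpace S] in
lemma card_ne : (Fintype.card S : ℝ≥0∞) ≠ 0 := Nat.cast_ne_zero.2 Fintype.card_ne_zero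

omit [Group Γ] [Nonempty S] [MeasurableSpace S] [DiscreteMeasurableSpace S] in
lemma card_top : (Fintype.card S : ℝ≥0∞) ≠ ⊤ := ENNReal.natCast_ne_top _

/-- following a word -/
lemma follow (A : Set Γ) (v : List S) : ∀ g : Γ, g * (v.map (fun s : S => (s : Γ))).prod ∈ A →
    1 ≤ (Fintype.card S : ℝ≥0∞) ^ v.length *
      mlaw S {c : ℕ → S | g * pos c v.length ∈ A} := by
  induction v with
  | nil =>
    intro g hg
    have h1 : {c : ℕ → S | g * pos c ([] : List S).length ∈ A} = Set.univ := by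
      ext c
      simp only [Set.mem_ofPred_eq, Set.mem_univ, iff_true]
      simpa [pos_zero] using hg
    rw [h1]
    simp
  | cons s v ih =>
    intro g hg
    have hg' : (g * (s : Γ)) * (v.map (fun s : S => (s : Γ))).prod ∈ A := by
      simpa [mul_assoc] using hg
    have h1 := ih _ hg'
    rw [List.length_cons, split_pos]
    refine h1.trans ?_
    rw [pow_succ, mul_assoc, ← mul_assoc (Fintype.card S : ℝ≥0∞),
      ENNReal.mul_inv_cancel card_ne card_top, one_mul]
    gcongr
    exact Finset.single_le_sum (f := fun s : S =>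
      mlaw S {c : ℕ → S | (g * (s : Γ)) * pos c v.length ∈ A}) (fun _ _ => zero_le)
      (Finset.mem_univ s)

/-- a word after time `n` -/
lemma after (W A : Set Γ) (v : List S) (hv : ∀ x ∈ W, x * (v.map (fun s : S => (s : Γ))).prod ∈ A) :
    ∀ (n : ℕ) (g : Γ), mlaw S {c : ℕ → S | g * pos c n ∈ W} ≤
      (Fintype.card S : ℝ≥0∞) ^ v.length *
        mlaw S {c : ℕ → S | g * pos c (n + v.length) ∈ A} := by
  intro n
  induction n with
  | zero =>
    intro g
    by_cases hg : g ∈ W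
    · rw [zero_add]
      exact prob_le_one.trans (follow A v g (hv g hg))
    · have h1 : {c : ℕ → S | g * pos c 0 ∈ W} = ∅ := by
        ext c
        simp only [Set.mem_ofPred_eq, Set.mem_empty_iff_false, iff_false]
        simpa [pos_zero] using hg
      rw [h1]
      simp
  | succ n ih =>
    intro g
    have e : n + 1 + v.length = n + v.length + 1 := by ring
    rw [e, split_pos, split_pos, mul_left_comm]
    gcongr
    rw [Finset.mul_sum]
    exact Finset.sum_le_sum fun s _ => ih _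

lemma after_one (W A : Set Γ) (v : List S)
    (hv : ∀ x ∈ W, x * (v.map (fun s : S => (s : Γ))).prod ∈ A) :
    ∑' n : ℕ, mlaw S {c : ℕ → S | pos c n ∈ W} ≤
      (Fintype.card S : ℝ≥0∞) ^ v.length * ∑' n : ℕ, mlaw S {c : ℕ → S | pos c n ∈ A} := by
  have h1 : ∀ (n : ℕ) (B : Set Γ), {c : ℕ → S | (1 : Γ) * pos c n ∈ B} = {c | pos c n ∈ B} := by
    intro n B
    simp only [one_mul]
  calc ∑' n : ℕ, mlaw S {c : ℕ → S | pos c n ∈ W}
      ≤ ∑' n : ℕ, (Fintype.card S : ℝ≥0∞) ^ v.length *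
        mlaw S {c : ℕ → S | pos c (n + v.length) ∈ A} := by
        refine ENNReal.tsum_le_tsum fun n => ?_
        have := after W A v hv n 1
        rwa [h1, h1] at this
    _ = (Fintype.card S : ℝ≥0∞) ^ v.length *
        ∑' n : ℕ, mlaw S {c : ℕ → S | pos c (n + v.length) ∈ A} := ENNReal.tsum_mul_left
    _ ≤ _ := mul_le_mul' le_rfl (ENNReal.tsum_comp_le_tsum_of_injective
        (f := fun n : ℕ => n + v.length) (fun a b h => by simpa using h)
        (fun n => mlaw S {c : ℕ → S | pos c n ∈ A}))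

end walk

section sys

variable {Γ : Type} [Group Γ] {S : Finset Γ} {H : Subgroup Γ} {h : Γ → ℤ} {b : Γ → ℝ} {θ : ℝ}
  {D : ℕ} {t : Γ}

lemma h_one (hs : Sys S H h b θ D t) : h 1 = 0 := by
  have := hs.h_mul 1 H.one_mem 1
  rw [mul_one] at this
  omega

lemma h_zpow (hs : Sys S H h b θ D t) (k : ℤ) : h (t ^ k) = k := by
  have hstep : ∀ y, h (t * y) = 1 + h y := fun y => by rw [hs.h_mul t hs.t_mem, hs.ht]
  induction k using Int.induction_on with
  | zero => rw [zpow_zero, h_one hs]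
  | succ i ih =>
    have : t ^ ((i : ℤ) + 1) = t * t ^ (i : ℤ) := by
      rw [add_comm, zpow_add, zpow_one]
    rw [this, hstep, ih]
    ring
  | pred i ih =>
    have : t * t ^ (-(i : ℤ) - 1) = t ^ (-(i : ℤ)) := by
      rw [← zpow_one_add]
      congr 1
      ring
    have h2 := hstep (t ^ (-(i : ℤ) - 1))
    rw [this, ih] at h2
    omega

/-- heights along a word -/
lemma h_word (hs : Sys S H h b θ D t) (v : List S) : ∀ g : Γ,
    h g - D * v.length ≤ h (g * (v.map (fun s : S => (s : Γ))).prod) := by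
  induction v with
  | nil => intro g; simp
  | cons s v ih =>
    intro g
    have h1 := ih (g * (s : Γ))
    have h2 := hs.h_step g s s.2
    rw [abs_le] at h2
    simp only [List.map_cons, List.prod_cons, List.length_cons]
    rw [← mul_assoc]
    push_cast
    have h3 : (D : ℤ) * ((v.length : ℤ) + 1) = D * v.length + D := by ring
    rw [h3]
    linarith [h2.1]

/-- displacements along a word -/
lemma b_word (hs : Sys S H h b θ D t) (K : ℕ) (v : List S) : ∀ g : Γ,
    -(D * (K : ℤ)) + D * v.length ≤ h g →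
    b (g * (v.map (fun s : S => (s : Γ))).prod) ≤ b g + v.length * (D * θ ^ (-(D * (K : ℤ)))) := by
  induction v with
  | nil => intro g _; simp
  | cons s v ih =>
    intro g hg
    have h2 := hs.h_step g s s.2
    rw [abs_le] at h2
    simp only [List.length_cons] at hg
    push_cast at hg
    have h3 : (D : ℤ) * ((v.length : ℤ) + 1) = D * v.length + D := by ring
    rw [h3] at hg
    have h1 := ih (g * (s : Γ)) (by linarith [h2.1])
    have h4 := hs.b_step g s s.2
    have hDnn : (0 : ℤ) ≤ D * v.length := by positivity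
    have hD0 : (0 : ℤ) ≤ D := by positivity
    have h5 : θ ^ h g ≤ θ ^ (-(D * (K : ℤ))) :=
      zpow_le_zpow_right_of_le_one₀ hs.θ0 hs.θ1.le (by linarith)
    simp only [List.map_cons, List.prod_cons, List.length_cons]
    rw [← mul_assoc]
    push_cast
    have h6 : (D : ℝ) * θ ^ h g ≤ D * θ ^ (-(D * (K : ℤ))) := by gcongr
    linarith

end sys

theorem win : P_WIN := by
  intro Γ _ S _ _ _ H h b θ D t hs htail L R
  classical
  have hfin := hs.fin
  -- for each element of the window a word leading to `H` at height zero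
  have hex : ∀ g : Γ, 0 ≤ h g → h g < L → ∃ e ∈ (Set.range (fun p : (Γ ⧸ H) × Set.Ico (0 : ℤ) L =>
      (p.1.out : Γ) * t ^ (h ((p.1.out : Γ)⁻¹) - p.2.1))), g * e ∈ H ∧ h (g * e) = 0 := by
    intro g h0 hL
    refine ⟨_, ⟨(QuotientGroup.mk g⁻¹, ⟨h g, h0, hL⟩), rfl⟩, ?_⟩
    obtain ⟨r, hr⟩ : ∃ r : Γ, r = ((QuotientGroup.mk g⁻¹ : Γ ⧸ H).out : Γ) := ⟨_, rfl⟩
    have hrH : g * r ∈ H := by
      have h1 : (QuotientGroup.mk r : Γ ⧸ H) = QuotientGroup.mk g⁻¹ := by
        rw [hr]
        exact Quotient.out_eq _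
      have h2 := QuotientGroup.eq.1 h1
      have h3 : (r⁻¹ * g⁻¹)⁻¹ ∈ H := H.inv_mem h2
      simpa using h3
    simp only
    rw [← hr]
    have h4 : h g = h (g * r) + h r⁻¹ := by
      rw [← hs.h_mul _ hrH]
      simp
    rw [← mul_assoc]
    refine ⟨H.mul_mem hrH (H.zpow_mem hs.t_mem _), ?_⟩
    rw [hs.h_mul _ hrH, h_zpow hs]
    omega
  have hfinE : (Set.range (fun p : (Γ ⧸ H) × Set.Ico (0 : ℤ) L =>
      (p.1.out : Γ) * t ^ (h ((p.1.out : Γ)⁻¹) - p.2.1))).Finite := by
    have : Finite (Γ ⧸ H) := inferInstance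
    exact Set.finite_range _
  choose w hw using fun e : Γ => exists_word S hs.sym hs.gen e
  -- the cover
  let Wd : Γ → Set Γ := fun e =>
    {x | 0 ≤ h x ∧ h x < L ∧ b x ≤ R ∧ x * e ∈ H ∧ h (x * e) = 0}
  let Rd : Γ → ℝ := fun e => R + (w e).length * (D * θ ^ (-(D * ((w e).length : ℤ))))
  have hmap : ∀ e, ∀ x ∈ Wd e, x * ((w e).map (fun s : S => (s : Γ))).prod ∈
      {x | x ∈ H ∧ h x = 0 ∧ b x ≤ Rd e} := by
    rintro e x ⟨h0, hL, hb, hH, hz⟩
    have h1 := b_word hs (w e).length (w e) x (by linarith)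
    rw [hw] at h1 ⊢
    exact ⟨hH, hz, by simp only [Rd]; linarith⟩
  have hsum : ∀ e, ∑' n : ℕ, mlaw S {c : ℕ → S | pos c n ∈ Wd e} ≠ ⊤ := by
    intro e
    refine ne_top_of_le_ne_top (ENNReal.mul_ne_top (ENNReal.pow_ne_top card_top) ?_)
      (after_one (Wd e) {x | x ∈ H ∧ h x = 0 ∧ b x ≤ Rd e} (w e) (hmap e))
    exact htail (Rd e)
  have hcov : ∀ n : ℕ, mlaw S {c : ℕ → S | 0 ≤ h (pos c n) ∧ h (pos c n) < L ∧ b (pos c n) ≤ R} ≤
      ∑ e ∈ hfinE.toFinset, mlaw S {c : ℕ → S | pos c n ∈ Wd e} := by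
    intro n
    refine (measure_mono ?_).trans (measure_biUnion_finset_le hfinE.toFinset
      (fun e => {c : ℕ → S | pos c n ∈ Wd e}))
    rintro c ⟨h0, hL, hb⟩
    obtain ⟨e, he, heH, hez⟩ := hex _ h0 hL
    rw [Set.mem_iUnion₂]
    exact ⟨e, hfinE.mem_toFinset.2 he, h0, hL, hb, heH, hez⟩
  refine ne_top_of_le_ne_top ?_ (ENNReal.tsum_le_tsum hcov)
  rw [Summable.tsum_finsetSum (fun _ _ => ENNReal.summable)]
  exact ENNReal.sum_ne_top.2 fun e _ => hsum e

end Pool.Agent.W2helper77.FD
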